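import Pool.Agent.T9h20.TF.Fin2

/-!
# Many real roots need extreme cancellation

Worst case. `F = ∑ i, b_i X ^ d_i ∏ j, g_j ^ α_ij`, the factors `g_j` have at most `t` monomials;
`M(x)` is the largest of the products with each factor replaced by its largest term. There are
only `poly(k, m, q, t, log D, log Y, log (1 / A))` points which are pairwise separated by roots of
`F` and have `|F| ≥ A M`.
-/

set_option autoImplicit false

namespace Pool.Agent.Results.MP_97f157_lc.CancellationNeeded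

/-- The polynomial `∑ i, b i * X ^ d i * ∏ j, g_j ^ α i j` with the factors
`g_j = ∑ s, u j s * X ^ e j s`. -/
noncomputable def expr {k q t : ℕ} (b : Fin k → ℝ) (d : Fin k → ℕ) (α : Fin k → Fin q → ℕ)
    (e : Fin q → Fin t → ℕ) (u : Fin q → Fin t → ℝ) : Polynomial ℝ :=
  ∑ i, Polynomial.C (b i) * Polynomial.X ^ d i *
    ∏ j, (∑ s, Polynomial.C (u j s) * Polynomial.X ^ e j s) ^ α i j

/-- The size of the product `i` at `x ≥ 0`: every factor `g_j` is replaced by its largest term. -/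
noncomputable def size {k q t : ℕ} (b : Fin k → ℝ) (d : Fin k → ℕ) (α : Fin k → Fin q → ℕ)
    (e : Fin q → Fin t → ℕ) (u : Fin q → Fin t → ℝ) (i : Fin k) (x : ℝ) : ℝ :=
  |b i| * x ^ d i * ∏ j, (⨆ s, |u j s| * x ^ e j s) ^ α i j

theorem result {k q t m D : ℕ} (hk : 1 ≤ k) (hq : 1 ≤ q) (ht : 1 ≤ t) (hD : 1 ≤ D)
    (b : Fin k → ℝ) (d : Fin k → ℕ) (α : Fin k → Fin q → ℕ) (e : Fin q → Fin t → ℕ)
    (u : Fin q → Fin t → ℝ) (hα : ∀ i, ∑ j, α i j ≤ m) (hd : ∀ i, d i ≤ D)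
    (he : ∀ j s, e j s ≤ D) (hu : ∀ j, ∃ s, u j s ≠ 0) (A Y : ℝ) (hA : 0 < A) (hA1 : A ≤ 1)
    (hY : 1 ≤ Y) (N : ℕ) (x : ℕ → ℝ) (hx : ∀ l, l < N → x l < x (l + 1))
    (hxY : ∀ l, l ≤ N → Real.exp (-Y) ≤ |x l| ∧ |x l| ≤ Real.exp Y)
    -- consecutive points are separated by a root
    (hz : ∀ l, l < N → ∃ z, x l < z ∧ z < x (l + 1) ∧ (expr b d α e u).IsRoot z)
    -- the points are high
    (hne : ∀ l, l ≤ N → (expr b d α e u).eval (x l) ≠ 0)
    (hh : ∀ l, l ≤ N → ∀ i, A * size b d α e u i |x l| ≤ |(expr b d α e u).eval (x l)|) :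
    (N : ℝ) + 1 ≤ 330 * k ^ 2 * q * t * Real.log (1 + 2 * (Y + 1) * ((m + 1) * D)) *
      (2 + Real.logb 3 (k * (t : ℝ) ^ m / A)) := by
  have hev : ∀ y, (expr b d α e u).eval y = Pool.Agent.T9h20.TF.ev b d α e u y := by
    intro y
    unfold expr Pool.Agent.T9h20.TF.ev
    simp only [Polynomial.eval_finsetSum, Polynomial.eval_prod, Polynomial.eval_mul,
      Polynomial.eval_C, Polynomial.eval_pow, Polynomial.eval_X]
  refine Pool.Agent.T9h20.TF.main_all Pool.Agent.T9h20.TF.sTot' hk hq ht hD b d α e u hα hd he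
    hu A Y hA hA1 hY N x hx hxY (fun l hl => ?_) (fun l hl => ?_) (fun l hl i => ?_)
  · obtain ⟨z, h1, h2, h3⟩ := hz l hl
    refine ⟨z, ⟨h1, h2⟩, ?_⟩
    rw [← hev]
    exact h3
  · rw [← hev]
    exact hne l hl
  · rw [← hev]
    exact hh l hl i

end Pool.Agent.Results.MP_97f157_lc.CancellationNeeded
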