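import Pool.Agent.T9h48.Form

/-!
# Real zeros of sums of products of polynomials in `x, x ^ 2, x ^ 4, ..., x ^ (2 ^ L)`

Let `U = ∏ j, (G_j (x ^ 2 ^ l_j)) ^ α_j` and `V = ∏ j, (G_j (x ^ 2 ^ l_j)) ^ β_j`, where the `G_j` are
real polynomials and `l_j ≤ L`. We show that a sum of `k` products `c_i U ^ i V ^ (k - 1 - i)`, for
instance (`k = 2`) a sum of two arbitrary products of the `G_j (x ^ 2 ^ l_j)`, has at most
`k (2 (L + 3) (3 T + 1) + 1)` different real zeros, where `T` is the sum of the degrees of the `G_j`.

Proof. By Rolle's theorem it suffices to count the positive zeros of a sum of real rational functions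
`F = ∑ R_j (x ^ 2 ^ l_j)` (the logarithmic derivative of `U / V`). Let `v_k` be the imaginary part of
`F` on the ray with the angle `π / 2 ^ k`. It is a sum of rational functions of the powers
`x ^ 2 ^ l` with `l < k`, since the other terms are real on this ray. On the ray with the angle
`π / 2 ^ k` the real part of `2 v_k` is `v_(k-1)`. Hence the number of zeros of `v_k` is at most the
number of zeros of `v_(k-1)` plus the number of poles of `v_k` in the sector plus a small term: the
argument of `v_k` on the ray changes at most by `π` between two zeros of the real part. The number of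
poles in the sector is at most `2 T` for each `k`, because the degrees are doubled only once.
-/

set_option autoImplicit false

open Polynomial

namespace Pool.Agent.Results.MP_97f157_lc.PowersOfTwo

/-- **Real zeros of sums of products of polynomials in `x ^ 2 ^ l`, `l ≤ L`.** -/
theorem result {ι : Type} [Fintype ι] (G : ι → ℝ[X]) (l : ι → ℕ) (L : ℕ) (hL : ∀ j, l j ≤ L)
    (α β : ι → ℕ) (k : ℕ) (c : ℕ → ℝ) :
    (∑ i ∈ Finset.range k, C (c i) * (∏ j, ((G j).comp (X ^ 2 ^ l j)) ^ α j) ^ i *
        (∏ j, ((G j).comp (X ^ 2 ^ l j)) ^ β j) ^ (k - 1 - i)).roots.toFinset.card ≤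
      k * (2 * (L + 3) * (3 * ∑ j, (G j).natDegree + 1) + 1) := by
  classical
  have h : ∀ γ : ι → ℕ, (∏ j, ((G j).comp (X ^ 2 ^ l j)) ^ γ j) =
      Pool.Agent.T9h48.prd (fun j => 2 ^ l j) G γ Finset.univ := by
    intro γ
    unfold Pool.Agent.T9h48.prd
    exact Finset.prod_congr rfl fun j _ => by rw [expand_eq_comp_X_pow]
  rw [h, h]
  refine Pool.Agent.T9h48.card_form_le _ _ _ ?_ k c
  intro a b
  have h1 := Pool.Agent.T9h48.card_two_le (G := G) (α := α) (β := β) (S := Finset.univ)
    (a := a) (b := b) (e := fun j => 2 ^ l j) (fun j _ => by positivity)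
    (fun T => (L + 2) * (3 * T + 1))
    (fun x y hxy => Nat.mul_le_mul_left _ (by omega))
    (fun S' _ P K hK => Pool.Agent.T9h48.pos_num_le_tower L _ P K S' hK
      (fun j _ => ⟨l j, hL j, rfl⟩))
  refine h1.trans ?_
  have e1 : Pool.Agent.T9h48.tdeg G Finset.univ = ∑ j, (G j).natDegree := rfl
  rw [e1]
  set T := ∑ j, (G j).natDegree
  nlinarith [Nat.zero_le (L * T)]

end Pool.Agent.Results.MP_97f157_lc.PowersOfTwo
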