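import Pool.Agent.T9h20.TG.Fin2

/-!
# Real roots which survive tiny perturbations

Deterministic result on `F = ∑ i, b_i X ^ d_i ∏ j, g_j ^ α_ij`, the factors `g_j` having at most
`t` monomials: if all `F` with coefficients of the `g_j` changed by relative amounts at most `ρ`
have at least `N` distinct real roots, then `N ≤ poly(k, q, t, m, log D, log (1 / ρ))` (1). The
same for sums of `k` products of `m` polynomials (2).
-/

set_option autoImplicit false

namespace Pool.Agent.Results.MP_97f157_lc.RobustRoots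

/-- The polynomial `∑ i, b i * X ^ d i * ∏ j, g_j ^ α i j` with the factors
`g_j = ∑ s, u j s * X ^ e j s`. -/
noncomputable def expr {k q t : ℕ} (b : Fin k → ℝ) (d : Fin k → ℕ) (α : Fin k → Fin q → ℕ)
    (e : Fin q → Fin t → ℕ) (u : Fin q → Fin t → ℝ) : Polynomial ℝ :=
  ∑ i, Polynomial.C (b i) * Polynomial.X ^ d i *
    ∏ j, (∑ s, Polynomial.C (u j s) * Polynomial.X ^ e j s) ^ α i j

/-- The polynomial `∑ i, ∏ j, ∑ s, u i j s * X ^ e i j s`: a sum of `k` products of `m`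
polynomials with at most `t` monomials. -/
noncomputable def spsPoly {k m t : ℕ} (e : Fin k → Fin m → Fin t → ℕ)
    (u : Fin k → Fin m → Fin t → ℝ) : Polynomial ℝ :=
  ∑ i, ∏ j, ∑ s, Polynomial.C (u i j s) * Polynomial.X ^ e i j s

/-- The number of distinct real roots (zero for the zero polynomial). -/
noncomputable def numRoots (f : Polynomial ℝ) : ℕ := f.roots.toFinset.card

theorem result {k q t m D : ℕ} (hk : 1 ≤ k) (hq : 1 ≤ q) (ht : 1 ≤ t) (hD : 1 ≤ D) :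
    -- (1) robust roots of an arbitrary expression
    (∀ (b : Fin k → ℝ) (d : Fin k → ℕ) (α : Fin k → Fin q → ℕ) (e : Fin q → Fin t → ℕ)
      (u : Fin q → Fin t → ℝ), (∀ i, ∑ j, α i j ≤ m) → Function.Injective α →
      (∀ i, d i ≤ D) → (∀ j s, e j s ≤ D) → (∃ i, b i ≠ 0) → (∀ j, ∃ s, u j s ≠ 0) →
      ∀ (ρ : ℝ) (N : ℕ), 0 < ρ → ρ ≤ 1 →
      (∀ u' : Fin q → Fin t → ℝ, (∀ j s, |u' j s - u j s| ≤ ρ * |u j s|) →
        N ≤ numRoots (expr b d α e u')) →
      (N : ℝ) ≤ 200000 * (2 + k + q + t + m + Real.log D + Real.log (1 / ρ)) ^ 11) ∧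
    -- (2) robust roots of a sum of `k` products of `m` polynomials
    (1 ≤ m → ∀ (e : Fin k → Fin m → Fin t → ℕ) (u : Fin k → Fin m → Fin t → ℝ),
      (∀ i j s, e i j s ≤ D) → (∀ i j, ∃ s, u i j s ≠ 0) → ∀ (ρ : ℝ) (N : ℕ), 0 < ρ → ρ ≤ 1 →
      (∀ u' : Fin k → Fin m → Fin t → ℝ, (∀ i j s, |u' i j s - u i j s| ≤ ρ * |u i j s|) →
        N ≤ numRoots (spsPoly e u')) →
      (N : ℝ) ≤ 200000 * (2 + k + k * m + t + m + Real.log D + Real.log (1 / ρ)) ^ 11) := by
  refine ⟨fun b d α e u hα hinj hd he hb hu ρ N hρ hρ1 hN => ?_,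
    fun hm e u he hu ρ N hρ hρ1 hN => ?_⟩
  · exact Pool.Agent.T9h20.TG.robustG Pool.Agent.T9h20.TG.sCountG' Pool.Agent.T9h20.TG.sMvG'
      Pool.Agent.T9h20.TG.sPoly' hk hq ht hD b d α e u hα hinj hd he hb hu ρ hρ hρ1 N hN _ rfl
  · exact Pool.Agent.T9h20.TG.robust_kmt hk hm ht hD e u he hu ρ hρ hρ1 N hN _ rfl

end Pool.Agent.Results.MP_97f157_lc.RobustRoots
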