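import Pool.Agent.T9h20.TE.Fin2

/-!
# The real tau-conjecture in the smoothed sense, for arbitrary expressions

`F = ∑ i, b_i X ^ d_i ∏ j, g_j ^ α_ij` with deterministic real `b_i` and arbitrary exponents; only
the coefficients of the `q` factors `g_j` (with at most `t` monomials) are random. Whatever the
products share, the expected number of distinct real roots is `O(k q t)`. Consequently `F` has
`O(k q t / ρ)` roots which survive all perturbations of the `g_j` of relative size `ρ`.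
-/

set_option autoImplicit false

open MeasureTheory ProbabilityTheory
open scoped ENNReal NNReal

namespace Pool.Agent.Results.MP_97f157_lc.SmoothedTauConjecture

/-- The polynomial `∑ i, b i * X ^ d i * ∏ j, g_j ^ α i j` with the factors
`g_j = ∑ s, u j s * X ^ e j s`. -/
noncomputable def expr {k q t : ℕ} (b : Fin k → ℝ) (d : Fin k → ℕ) (α : Fin k → Fin q → ℕ)
    (e : Fin q → Fin t → ℕ) (u : Fin q → Fin t → ℝ) : Polynomial ℝ :=
  ∑ i, Polynomial.C (b i) * Polynomial.X ^ d i *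
    ∏ j, (∑ s, Polynomial.C (u j s) * Polynomial.X ^ e j s) ^ α i j

/-- The polynomial `∑ i, ∏ j, ∑ s, u i j s * X ^ e i j s`: a sum of `k` products of `m`
polynomials with at most `t` monomials. -/
noncomputable def spsPoly {k m t : ℕ} (e : Fin k → Fin m → Fin t → ℕ)
    (u : Fin k → Fin m → Fin t → ℝ) : Polynomial ℝ :=
  ∑ i, ∏ j, ∑ s, Polynomial.C (u i j s) * Polynomial.X ^ e i j s

/-- The number of distinct real roots (zero for the zero polynomial). -/
noncomputable def numRoots (f : Polynomial ℝ) : ℝ≥0∞ := (f.roots.toFinset.card : ℝ≥0∞)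

theorem result {Ω : Type*} [MeasurableSpace Ω] (P : Measure Ω) [IsProbabilityMeasure P]
    {k q m t : ℕ} (hk : 1 ≤ k) (hq : 1 ≤ q) (hm : 1 ≤ m) (ht : 1 ≤ t) :
    (∀ (b : Fin k → ℝ) (d : Fin k → ℕ) (α : Fin k → Fin q → ℕ) (e : Fin q → Fin t → ℕ),
    -- (1) general laws
      (∀ (c : Fin q → Fin t → ℝ) (w : Fin q → Fin t → Ω → ℝ) (G : ℝ≥0),
        (∀ j, ∃ s, c j s ≠ 0) → (∀ j s, Measurable (w j s)) →
        iIndepFun (fun p : Fin q × Fin t => w p.1 p.2) P →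
        (∀ j s, ∃ V : ℝ, 0 < V ∧
          (∀ (h : ℝ) (A : Set ℝ), MeasurableSet A →
            P {ω | w j s ω + h ∈ A} ≤ P {ω | w j s ω ∈ A} + ENNReal.ofReal V * ‖h‖ₑ) ∧
          ENNReal.ofReal V * ∫⁻ ω, ‖w j s ω‖ₑ ∂P ≤ G) →
        Measurable (fun ω => numRoots (expr b d α e fun j s => c j s * w j s ω)) ∧
        ∫⁻ ω, numRoots (expr b d α e fun j s => c j s * w j s ω) ∂P ≤
          1 + 20 * (k : ℝ≥0∞) * q * t * (1 + G)) ∧
    -- (2) the coefficients `a + τ ξ` with `ξ` uniform on `[-1, 1]`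
      (∀ (a τ : Fin q → Fin t → ℝ) (R : ℝ≥0) (ξ : Fin q → Fin t → Ω → ℝ),
        (∀ j s, 0 ≤ τ j s) → (∀ j, ∃ s, 0 < τ j s) → (∀ j s, |a j s| ≤ R * τ j s) →
        (∀ j s, Measurable (ξ j s)) → iIndepFun (fun p : Fin q × Fin t => ξ p.1 p.2) P →
        (∀ j s, P.map (ξ j s) =
          (2 : ℝ≥0∞)⁻¹ • (volume : Measure ℝ).restrict (Set.Icc (-1) 1)) →
        Measurable (fun ω => numRoots (expr b d α e fun j s => a j s + τ j s * ξ j s ω)) ∧
        ∫⁻ ω, numRoots (expr b d α e fun j s => a j s + τ j s * ξ j s ω) ∂P ≤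
          1 + 10 * (k : ℝ≥0∞) * q * t * (R + 3))) ∧
    -- (3) the same for sums of `k` products of `m` independent factors
    (∀ (e : Fin k → Fin m → Fin t → ℕ) (a τ : Fin k → Fin m → Fin t → ℝ) (R : ℝ≥0)
      (ξ : Fin k → Fin m → Fin t → Ω → ℝ),
      (∀ i j s, 0 ≤ τ i j s) → (∀ i j, ∃ s, 0 < τ i j s) → (∀ i j s, |a i j s| ≤ R * τ i j s) →
      (∀ i j s, Measurable (ξ i j s)) →
      iIndepFun (fun p : Fin k × Fin m × Fin t => ξ p.1 p.2.1 p.2.2) P →
      (∀ i j s, P.map (ξ i j s) =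
        (2 : ℝ≥0∞)⁻¹ • (volume : Measure ℝ).restrict (Set.Icc (-1) 1)) →
      Measurable (fun ω => numRoots (spsPoly e fun i j s => a i j s + τ i j s * ξ i j s ω)) ∧
      ∫⁻ ω, numRoots (spsPoly e fun i j s => a i j s + τ i j s * ξ i j s ω) ∂P ≤
        1 + 10 * (k : ℝ≥0∞) ^ 2 * m * t * (R + 3)) ∧
    -- (4) roots which survive all perturbations of relative size `ρ` (nothing is random)
    ∀ (b : Fin k → ℝ) (d : Fin k → ℕ) (α : Fin k → Fin q → ℕ) (e : Fin q → Fin t → ℕ)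
      (u : Fin q → Fin t → ℝ) (ρ : ℝ≥0) (N : ℕ), (∀ j, ∃ s, u j s ≠ 0) → 0 < ρ →
      (∀ u' : Fin q → Fin t → ℝ, (∀ j s, |u' j s - u j s| ≤ ρ * |u j s|) →
        (N : ℝ≥0∞) ≤ numRoots (expr b d α e u')) →
      (N : ℝ) ≤ 1 + 10 * k * q * t * (1 / ρ + 3) := by
  refine ⟨fun b d α e => ⟨fun c w G hc hw hind hG => ⟨?_, ?_⟩,
    fun a τ R ξ hτ hτ' ha hξ hind hlaw => ⟨?_, ?_⟩⟩,
    fun e a τ R ξ hτ hτ' ha hξ hind hlaw => ⟨?_, ?_⟩,
    fun b d α e u ρ N hu hρ hN => ?_⟩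
  · exact (Pool.Agent.T9h20.TE.measurable_nr b d α e).comp (measurable_pi_lambda _ fun j =>
      measurable_pi_lambda _ fun s => (hw j s).const_mul _)
  · exact (Pool.Agent.T9h20.TE.main_gen Pool.Agent.T9h20.TE.bnd' P ht b d α e c hc w hw hind G
      hG).trans (Pool.Agent.T9h20.TE.num3 k q t hk hq ht G)
  · exact (Pool.Agent.T9h20.TE.measurable_nr b d α e).comp (measurable_pi_lambda _ fun j =>
      measurable_pi_lambda _ fun s => ((hξ j s).const_mul _).const_add _)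
  · exact (Pool.Agent.T9h20.TE.main_smooth Pool.Agent.T9h20.TE.bnd' P ht b d α e a τ R hτ hτ'
      ha ξ hξ hind hlaw).trans (Pool.Agent.T9h20.TE.num4 k q t hk hq ht R)
  · exact (Pool.Agent.T9h20.TE.measurable_nr_sps e).comp (measurable_pi_lambda _ fun i =>
      measurable_pi_lambda _ fun j => measurable_pi_lambda _ fun s =>
        ((hξ i j s).const_mul _).const_add _)
  · refine (Pool.Agent.T9h20.TE.kmt_smooth Pool.Agent.T9h20.TE.bnd' P ht e a τ R hτ hτ' ha ξ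
      hξ hind hlaw).trans ((Pool.Agent.T9h20.TE.num4 k (k * m) t hk
        (Nat.mul_pos hk hm) ht R).trans (le_of_eq ?_))
    push_cast
    ring
  · have h := (Pool.Agent.T9h20.TE.robust Pool.Agent.T9h20.TE.bnd' ht b d α e u hu ρ hρ N
      hN).trans (Pool.Agent.T9h20.TE.num4 k q t hk hq ht ρ⁻¹)
    have h2 : (N : ℝ≥0∞) ≤ ((1 + 10 * k * q * t * (ρ⁻¹ + 3) : ℝ≥0) : ℝ≥0∞) := by
      push_cast at h ⊢
      exact h
    have h3 : (N : ℝ≥0) ≤ 1 + 10 * k * q * t * (ρ⁻¹ + 3) := by exact_mod_cast h2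
    have h4 : ((N : ℝ≥0) : ℝ) ≤ ((1 + 10 * k * q * t * (ρ⁻¹ + 3) : ℝ≥0) : ℝ) :=
      NNReal.coe_le_coe.mpr h3
    push_cast at h4
    rw [one_div]
    exact h4

end Pool.Agent.Results.MP_97f157_lc.SmoothedTauConjecture
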